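import Pool.Agent.H.MP_321d0a_co.Final

/-!
# The minimum of the perspective Tutte polynomial at `(0,0,1)` and the extremal perspectives

All definitions used in the statement (`rk`, `IsPersp`, `tutte`, `IsFactor`, `PConn`, `Extremal`)
are in the module `Pool.Agent.H.MP_321d0a_co.Defs`.
-/

namespace Pool.Agent.Results.MP_321d0a_co.MinimumAndExtremal

open Pool.Agent.H.MP_321d0a_co

/-- For every `k`, the minimum of `T(M, M'; 0, 0, 1)` over all connected perspectives `M → M'`
of finite matroids with `r(M) - r(M') = k` is `2 ^ (k + 1) - 2`. For `k = 0` it is attained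
exactly when `M' = M` is connected, and for `k ≥ 1` exactly at the family `Extremal k`. -/
theorem result :
    (∀ k : ℕ, IsLeast {t : ℤ | ∃ (α : Type) (M M' : Matroid α), M.Finite ∧ IsPersp M M' ∧
        PConn M M' ∧ rk M M.E = rk M' M.E + k ∧ tutte M M' 0 0 1 = t} (2 ^ (k + 1) - 2)) ∧
    (∀ (α : Type) (M M' : Matroid α), M.Finite →
      ((IsPersp M M' ∧ PConn M M' ∧ rk M M.E = rk M' M.E + 0 ∧
        tutte M M' 0 0 1 = 2 ^ (0 + 1) - 2) ↔ M' = M ∧ PConn M M)) ∧
    (∀ (α : Type) (M M' : Matroid α) (k : ℕ), M.Finite → 1 ≤ k →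
      ((IsPersp M M' ∧ PConn M M' ∧ rk M M.E = rk M' M.E + k ∧
        tutte M M' 0 0 1 = 2 ^ (k + 1) - 2) ↔ Extremal k M M')) := by
  refine ⟨fun k => ⟨?_, ?_⟩, fun α M M' hfin => main_zero hfin,
    fun α M M' k hfin hk => main_class hfin hk⟩
  · obtain ⟨M, M', h1, h2, h3, h4, h5⟩ := example_ext k
    exact ⟨Fin (k + 1), M, M', h1, h2, h3, h4, h5⟩
  · rintro t ⟨α, M, M', h1, h2, h3, h4, rfl⟩
    exact main_bound h1 h2 h3 h4

end Pool.Agent.Results.MP_321d0a_co.MinimumAndExtremal
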